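import Pool.Agent.T2H57.VT.E
import Pool.Agent.Y766.G7

/-! The mean square over a short interval of a smoothed sum. -/

set_option autoImplicit false

namespace Pool.Agent.T2H54.SB.PkgV3

open Finset MeasureTheory Complex
open Pool.Agent.Y766
open Pool.Agent.H448R2.GC (cu)

theorem dyad (F : ℕ → ℂ) (N : ℕ) (hN : 1 ≤ N) (J : ℕ) :
    ∑ m ∈ Icc 1 (min (2 ^ J) N), F m = F 1 + ∑ j ∈ range J, ∑ m ∈ Ioc (min (2 ^ j) N) (min (2 ^ (j + 1)) N), F m := by
  induction J with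
  | zero =>
    have : min (2 ^ 0) N = 1 := by simp [hN]
    rw [this]
    simp
  | succ J ih =>
    rw [sum_range_succ, ← add_assoc, ← ih]
    have h1 : 1 ≤ min (2 ^ J) N := le_min Nat.one_le_two_pow hN
    have h2 : min (2 ^ J) N ≤ min (2 ^ (J + 1)) N := by
      apply min_le_min_right
      exact Nat.pow_le_pow_right (by norm_num) (by omega)
    have e : Icc 1 (min (2 ^ (J + 1)) N) = Icc 1 (min (2 ^ J) N) ∪ Ioc (min (2 ^ J) N) (min (2 ^ (J + 1)) N) := by
      ext m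
      rw [mem_union, mem_Icc, mem_Icc, mem_Ioc]
      omega
    rw [e, sum_union]
    rw [disjoint_left]
    intro m hm hm'
    rw [mem_Icc] at hm
    rw [mem_Ioc] at hm'
    omega

theorem cs_sum (J : ℕ) (v : ℕ → ℂ) : ‖∑ j ∈ range J, v j‖ ^ 2 ≤ J * ∑ j ∈ range J, ‖v j‖ ^ 2 := by
  have h1 : ‖∑ j ∈ range J, v j‖ ^ 2 ≤ (∑ j ∈ range J, ‖v j‖) ^ 2 :=
    pow_le_pow_left₀ (norm_nonneg _) (norm_sum_le _ _) 2
  refine h1.trans ?_
  have h2 := sq_sum_le_card_mul_sum_sq (s := range J) (f := fun j => ‖v j‖)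
  rwa [card_range] at h2

theorem SS_int_long {T L : ℝ} (hT : 0 < T) (hL : 0 < L) {N : ℕ} (hN : 1 ≤ N) {b : ℕ → ℝ}
    (hb0 : ∀ m, 1 ≤ m → 0 ≤ b m) (hb : ∀ m n, 1 ≤ m → m ≤ n → b n ≤ b m)
    (hb1 : ∀ m, 1 ≤ m → b m ^ 2 ≤ 1 / m) (h1 : T ≤ L ^ 3) (h2 : (N : ℝ) ^ 3 ≤ T * L ^ 2) :
    ∫ u in T..(T + L), ‖SS b (Icc 1 N) u‖ ^ 2 ≤ 150000 * L * (1 + Real.log N) ^ 4 := by
  have hN1 : (1 : ℝ) ≤ N := by exact_mod_cast hN
  have hlogN : 0 ≤ Real.log N := Real.log_nonneg hN1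
  set J := Nat.log 2 N + 1 with hJ
  have hJN : N ≤ 2 ^ J := (Nat.lt_pow_succ_log_self (by norm_num) N).le
  have hJj : ∀ j ∈ range J, 2 ^ j ≤ N := by
    intro j hj
    rw [mem_range] at hj
    exact Nat.pow_le_of_le_log (by omega) (by omega)
  have hdec : ∀ u, SS b (Icc 1 N) u = SS b {1} u + ∑ j ∈ range J, SS b (Ioc (2 ^ j) (min (2 ^ (j + 1)) N)) u := by
    intro u
    have h := dyad (fun m => (b m : ℂ) * cexp (((-(u * Real.log m) : ℝ) : ℂ) * I)) N hN J
    rw [min_eq_right hJN] at h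
    unfold SS
    rw [sum_singleton, h]
    congr 1
    refine sum_congr rfl fun j hj => ?_
    rw [min_eq_left (hJj j hj)]
  have hc : ∀ s : Finset ℕ, Continuous fun u => ‖SS b s u‖ ^ 2 := fun s => (SS_cont b s).norm.pow 2
  have hpt : ∀ u, ‖SS b (Icc 1 N) u‖ ^ 2 ≤ 2 * ‖SS b {1} u‖ ^ 2 +
      2 * J * ∑ j ∈ range J, ‖SS b (Ioc (2 ^ j) (min (2 ^ (j + 1)) N)) u‖ ^ 2 := by
    intro u
    rw [hdec u]
    have h3 := norm_add_le (SS b {1} u) (∑ j ∈ range J, SS b (Ioc (2 ^ j) (min (2 ^ (j + 1)) N)) u)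
    have h4 := cs_sum J (fun j => SS b (Ioc (2 ^ j) (min (2 ^ (j + 1)) N)) u)
    have h5 := pow_le_pow_left₀ (norm_nonneg _) h3 2
    nlinarith [sq_nonneg (‖SS b {1} u‖ - ‖∑ j ∈ range J, SS b (Ioc (2 ^ j) (min (2 ^ (j + 1)) N)) u‖)]
  have hone : ∀ u, ‖SS b {1} u‖ ^ 2 ≤ 1 := by
    intro u
    unfold SS
    rw [sum_singleton, norm_mul, Complex.norm_exp_ofReal_mul_I, mul_one, Complex.norm_real, Real.norm_eq_abs, sq_abs]
    have := hb1 1 le_rfl
    simpa using this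
  have hblk : ∀ j ∈ range J, ∫ u in T..(T + L), ‖SS b (Ioc (2 ^ j) (min (2 ^ (j + 1)) N)) u‖ ^ 2 ≤
      18006 * L * (1 + Real.log N) ^ 2 := by
    intro j hj
    have hjN := hJj j hj
    have hjNr : (((2 ^ j : ℕ)) : ℝ) ≤ N := by exact_mod_cast hjN
    have hj1 : (1 : ℝ) ≤ ((2 ^ j : ℕ) : ℝ) := by exact_mod_cast Nat.one_le_two_pow
    have h3 : ((2 ^ j : ℕ) : ℝ) ^ 3 ≤ T * L ^ 2 := (pow_le_pow_left₀ (by positivity) hjNr 3).trans h2
    have h4 := block_int (b := b) hT hL (X := 2 ^ j) (Z := min (2 ^ (j + 1)) N) Nat.one_le_two_pow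
      (le_min (Nat.pow_le_pow_right (by norm_num) (by omega)) hjN)
      ((min_le_left _ _).trans (by rw [pow_succ]; omega))
      (fun m hm => hb0 m (Nat.one_le_two_pow.trans hm.le)) (fun m n hm hmn => hb m n (Nat.one_le_two_pow.trans hm.le) hmn)
      (fun m hm => by
        refine (hb1 m (Nat.one_le_two_pow.trans hm.le)).trans ?_
        have h5 : ((2 ^ j : ℕ) : ℝ) ≤ m := by exact_mod_cast hm.le
        exact one_div_le_one_div_of_le (by linarith) h5) h1 h3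
    refine h4.trans ?_
    have h5 : Real.log ((2 ^ j : ℕ) : ℝ) ≤ Real.log N := Real.log_le_log (by linarith) hjNr
    have h6 : 0 ≤ Real.log ((2 ^ j : ℕ) : ℝ) := Real.log_nonneg hj1
    gcongr
  have hJr : (J : ℝ) ≤ 2 * (1 + Real.log N) := by
    have h3 : ((Nat.log 2 N : ℕ) : ℝ) * Real.log 2 ≤ Real.log N := by
      have h4 : 2 ^ Nat.log 2 N ≤ N := Nat.pow_log_le_self 2 (by omega)
      have h5 : ((2 : ℝ)) ^ Nat.log 2 N ≤ N := by exact_mod_cast h4
      have h6 := Real.log_le_log (by positivity) h5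
      rwa [Real.log_pow] at h6
    have h4 := Real.log_two_gt_d9
    have h5 : (0 : ℝ) ≤ ((Nat.log 2 N : ℕ) : ℝ) := Nat.cast_nonneg _
    rw [hJ]
    push_cast
    nlinarith
  have hJ0 : (0 : ℝ) ≤ J := Nat.cast_nonneg _
  calc ∫ u in T..(T + L), ‖SS b (Icc 1 N) u‖ ^ 2 ≤ ∫ u in T..(T + L), (2 * ‖SS b {1} u‖ ^ 2 +
      2 * J * ∑ j ∈ range J, ‖SS b (Ioc (2 ^ j) (min (2 ^ (j + 1)) N)) u‖ ^ 2) := by
        refine intervalIntegral.integral_mono_on (by linarith) ((hc _).intervalIntegrable _ _) ?_ (fun u _ => hpt u)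
        refine Continuous.intervalIntegrable ?_ _ _
        refine Continuous.add (continuous_const.mul (hc _)) (continuous_const.mul ?_)
        exact continuous_finsetSum _ fun j _ => hc _
    _ = 2 * (∫ u in T..(T + L), ‖SS b {1} u‖ ^ 2) +
      2 * J * ∑ j ∈ range J, ∫ u in T..(T + L), ‖SS b (Ioc (2 ^ j) (min (2 ^ (j + 1)) N)) u‖ ^ 2 := by
        rw [intervalIntegral.integral_add, intervalIntegral.integral_const_mul, intervalIntegral.integral_const_mul,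
          intervalIntegral.integral_finsetSum]
        · exact fun j _ => (hc _).intervalIntegrable _ _
        · exact (continuous_const.mul (hc _)).intervalIntegrable _ _
        · exact (continuous_const.mul (continuous_finsetSum _ fun j _ => hc _)).intervalIntegrable _ _
    _ ≤ 2 * L + 2 * J * (J * (18006 * L * (1 + Real.log N) ^ 2)) := by
        have h3 : ∫ u in T..(T + L), ‖SS b {1} u‖ ^ 2 ≤ L := by
          have h4 := intervalIntegral.integral_mono_on (μ := volume) (show T ≤ T + L by linarith)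
            ((hc {1}).intervalIntegrable T (T + L)) (intervalIntegrable_const (c := (1 : ℝ))) (fun u _ => hone u)
          rw [intervalIntegral.integral_const] at h4
          simpa using h4
        have h4 := sum_le_sum hblk
        rw [sum_const, card_range, nsmul_eq_mul] at h4
        have h5 := mul_le_mul_of_nonneg_left h4 (show 0 ≤ 2 * (J : ℝ) by positivity)
        linarith
    _ ≤ 150000 * L * (1 + Real.log N) ^ 4 := by
        have h3 : (J : ℝ) ^ 2 ≤ (2 * (1 + Real.log N)) ^ 2 := pow_le_pow_left₀ hJ0 hJr 2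
        have h4 : (1 : ℝ) ≤ (1 + Real.log N) ^ 4 := one_le_pow₀ (by linarith)
        have h5 : 0 ≤ L * (1 + Real.log N) ^ 2 := by positivity
        have h6 := mul_le_mul_of_nonneg_left h3 h5
        nlinarith

theorem gs_eq (N k : ℕ) (c : ℝ) (u D : ℝ) :
    gs N k c (hl u) D = SS (fun m => cu k c (Real.log m - D) * (Real.sqrt m)⁻¹) (Icc 1 N) u := by
  unfold gs SS
  refine sum_congr rfl fun m hm => ?_
  rw [mem_Icc] at hm
  have hm0 : (0 : ℝ) < m := by exact_mod_cast hm.1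
  have hmc : (m : ℂ) ≠ 0 := by exact_mod_cast hm0.ne'
  unfold hl
  rw [neg_add, Complex.cpow_add _ _ hmc]
  have e1 : (m : ℂ) ^ (-((1 / 2 : ℝ) : ℂ)) = (((Real.sqrt m)⁻¹ : ℝ) : ℂ) := by
    rw [← Complex.ofReal_neg, ← Complex.ofReal_natCast, ← Complex.ofReal_cpow hm0.le, Real.sqrt_eq_rpow,
      Real.rpow_neg hm0.le]
  have e2 : (m : ℂ) ^ (-((u : ℂ) * I)) = cexp (((-(u * Real.log m) : ℝ) : ℂ) * I) := by
    rw [Complex.cpow_def_of_ne_zero hmc, ← Complex.natCast_log]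
    congr 1
    push_cast
    ring
  rw [e1, e2]
  push_cast
  ring

theorem gs_int {T L : ℝ} (hT : 0 < T) (hL : 0 < L) {N : ℕ} (h1 : T ≤ L ^ 3) (h2 : (N : ℝ) ^ 3 ≤ T * L ^ 2)
    (k : ℕ) (c D : ℝ) (hc : 0 < c) :
    ∫ u in T..(T + L), ‖gs N k c (hl u) D‖ ^ 2 ≤ 150000 * L * (1 + Real.log N) ^ 4 := by
  rcases Nat.eq_zero_or_pos N with h0 | h0
  · subst h0
    unfold gs
    simp
    positivity
  simp_rw [gs_eq]
  apply SS_int_long hT hL h0 _ _ _ h1 h2
  · intro m hm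
    have := Pool.Agent.H448R2.GC.cu_nonneg k c (Real.log m - D) hc
    positivity
  · intro m n hm hmn
    have hm0 : (0 : ℝ) < m := by exact_mod_cast hm
    have hmn' : (m : ℝ) ≤ n := by exact_mod_cast hmn
    have h3 : Real.log m ≤ Real.log n := Real.log_le_log hm0 hmn'
    have h4 : cu k c (Real.log n - D) ≤ cu k c (Real.log m - D) :=
      Pool.Agent.H448R2.GC.cu_anti k c hc (by linarith)
    have h5 : (Real.sqrt n)⁻¹ ≤ (Real.sqrt m)⁻¹ := by
      apply inv_anti₀ (Real.sqrt_pos.2 hm0)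
      exact Real.sqrt_le_sqrt hmn'
    exact mul_le_mul h4 h5 (by positivity) (Pool.Agent.H448R2.GC.cu_nonneg k c _ hc)
  · intro m hm
    have hm0 : (0 : ℝ) < m := by exact_mod_cast hm
    have h3 := Pool.Agent.H448R2.GC.cu_nonneg k c (Real.log m - D) hc
    have h4 := Pool.Agent.H448R2.GC.cu_le_one k c (Real.log m - D) hc
    rw [mul_pow, inv_pow, Real.sq_sqrt hm0.le, one_div]
    have h5 : cu k c (Real.log m - D) ^ 2 ≤ 1 := by nlinarith
    have h6 : 0 ≤ ((m : ℝ))⁻¹ := by positivity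
    nlinarith

end Pool.Agent.T2H54.SB.PkgV3
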