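import Pool.Agent.T2H58.SE.Blk

/-! The second derivative test with a logarithm (from van der Corput's inequality and Kusmin-Landau). -/

set_option autoImplicit false

namespace Pool.Agent.T2H54.SB.PkgV3

open Finset
open Pool.Agent.Helper153.Vdc

theorem vdc2 {A : ℝ} (hA : 1 ≤ A) {N M : ℕ} {g : ℕ → ℝ} {lam : ℝ} (hN : 1 ≤ N) (hMN : M ≤ N)
    (hlam : 0 < lam) (hc : Cond 2 g M lam A) :
    ‖∑ n ∈ range M, ee (g n)‖ ^ 2 ≤ 33 * A * ((N : ℝ) ^ 2 * lam + 1 / lam) * (1 + Real.log N) := by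
  have hN1 : (1 : ℝ) ≤ N := by exact_mod_cast hN
  have hN0 : (0 : ℝ) < N := by linarith
  have hlogN : 0 ≤ Real.log N := Real.log_nonneg hN1
  have hA0 : 0 ≤ A := by linarith
  have hil : 0 < 1 / lam := by positivity
  have hNl : 0 < (N : ℝ) ^ 2 * lam := by positivity
  by_cases hbig : 1 < 2 * A * lam
  · have h1 : ‖∑ n ∈ range M, ee (g n)‖ ≤ N := (triv_bound M g).trans (by exact_mod_cast hMN)
    have h2 : ‖∑ n ∈ range M, ee (g n)‖ ^ 2 ≤ (N : ℝ) ^ 2 := pow_le_pow_left₀ (norm_nonneg _) h1 2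
    have h3 : (N : ℝ) ^ 2 ≤ 2 * A * ((N : ℝ) ^ 2 * lam) := by
      have : 0 < (N : ℝ) ^ 2 := by positivity
      nlinarith
    have h4 : 2 * A * ((N : ℝ) ^ 2 * lam) ≤ 33 * A * ((N : ℝ) ^ 2 * lam + 1 / lam) * 1 := by
      have h5 : 0 ≤ A * ((N : ℝ) ^ 2 * lam) := by positivity
      have h6 : 0 ≤ A * (1 / lam) := by positivity
      nlinarith
    have h5 : 33 * A * ((N : ℝ) ^ 2 * lam + 1 / lam) * 1 ≤
        33 * A * ((N : ℝ) ^ 2 * lam + 1 / lam) * (1 + Real.log N) :=
      mul_le_mul_of_nonneg_left (by linarith) (by positivity)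
    linarith
  push Not at hbig
  have hAl0 : 0 < 2 * A * lam := by positivity
  set q := 1 / (2 * A * lam) with hq
  have hq1 : 1 ≤ q := by rw [hq, le_div_iff₀ hAl0]; linarith
  set H := min N ⌊q⌋₊ with hH
  have hH1 : 1 ≤ H := le_min hN (Nat.floor_pos.2 hq1)
  have hHN : H ≤ N := min_le_left _ _
  have hH0 : (0 : ℝ) < H := by exact_mod_cast hH1
  have hHq : (H : ℝ) ≤ q := by
    have h1 : (H : ℝ) ≤ (⌊q⌋₊ : ℝ) := by exact_mod_cast min_le_right _ _
    exact h1.trans (Nat.floor_le (by linarith))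
  have hHinv : 1 / (H : ℝ) ≤ 1 / N + 4 * A * lam := by
    rcases le_total N ⌊q⌋₊ with h | h
    · have : H = N := min_eq_left h
      rw [this]
      have : 0 < 4 * A * lam := by positivity
      linarith
    · have hHf : H = ⌊q⌋₊ := min_eq_right h
      have h1 : q < (⌊q⌋₊ : ℝ) + 1 := Nat.lt_floor_add_one q
      have h2 : (1 : ℝ) ≤ ⌊q⌋₊ := by exact_mod_cast Nat.floor_pos.2 hq1
      have h3 : q ≤ 2 * H := by rw [hHf]; linarith
      have h4 : 1 / (H : ℝ) ≤ 2 / q := by
        rw [div_le_div_iff₀ hH0 (by linarith)]; linarith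
      have h5 : 2 / q = 4 * A * lam := by rw [hq]; field_simp; ring
      have h6 : 0 < 1 / (N : ℝ) := by positivity
      linarith
  have hSh : ∀ h ∈ Ico 1 H, ‖∑ n ∈ range (M - h), ee ((fun n => g (n + h) - g n) n)‖ ≤
      2 / lam * (1 / (h : ℝ)) := by
    intro h hh
    rw [mem_Ico] at hh
    have hch := cond_diff (k := 1) hc hh.1
    have hh0 : (0 : ℝ) < h := by exact_mod_cast hh.1
    have hhH : (h : ℝ) ≤ H := by exact_mod_cast hh.2.le
    have hle : A * (h * lam) ≤ 1 / 2 := by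
      have h1 : (h : ℝ) * (2 * A * lam) ≤ 1 := by
        have h2 : (h : ℝ) ≤ q := hhH.trans hHq
        rw [hq, le_div_iff₀ hAl0] at h2
        exact h2
      linarith
    have hθ : (h : ℝ) * lam ≤ 1 / 2 := by
      have : 0 < (h : ℝ) * lam := by positivity
      nlinarith
    have hkl := kusmin_landau (M - h) (fun n => g (n + h) - g n) (h * lam) (by positivity) hθ
      (fun n hn => by
        have := hch.1 n hn
        simp only [dd] at this
        exact ⟨this.1, this.2.trans hle⟩)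
      (fun n hn => by
        have := hch.2 n hn
        simp only [dd] at this
        linarith)
    refine hkl.trans (le_of_eq ?_)
    field_simp
  have hsum : ∑ h ∈ Ico 1 H, ‖∑ n ∈ range (M - h), ee ((fun n => g (n + h) - g n) n)‖ ≤
      2 / lam * (1 + Real.log N) := by
    refine (Finset.sum_le_sum hSh).trans ?_
    rw [← Finset.mul_sum]
    exact mul_le_mul_of_nonneg_left (sum_inv_le hHN) (by positivity)
  set L := 1 + Real.log N with hL
  have hL1 : 1 ≤ L := by linarith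
  have hv := vdc_ineq' M N H hMN hH1 hHN g
  set T := ∑ h ∈ Ico 1 H, ‖∑ n ∈ range (M - h), ee ((fun n => g (n + h) - g n) n)‖ with hT
  have hT0 : 0 ≤ T := Finset.sum_nonneg fun _ _ => norm_nonneg _
  have h1 : 2 * (N : ℝ) / H * ((N : ℝ) + 2 * T) ≤
      (2 * N * (1 / N + 4 * A * lam)) * (N + 2 * (2 / lam * L)) := by
    have h2 : 2 * (N : ℝ) / H = 2 * N * (1 / H) := by ring
    rw [h2]
    apply mul_le_mul
    · exact mul_le_mul_of_nonneg_left hHinv (by positivity)
    · linarith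
    · positivity
    · positivity
  have h3 : (2 * N * (1 / N + 4 * A * lam)) * (N + 2 * (2 / lam * L)) =
      2 * N + 8 * (L * (1 / lam)) + 8 * A * ((N : ℝ) ^ 2 * lam) + 32 * A * (N * L) := by
    field_simp
    ring
  rw [h3] at h1
  have hamg : 2 * (N : ℝ) ≤ (N : ℝ) ^ 2 * lam + 1 / lam := by
    have h4 : (N : ℝ) ^ 2 * lam + 1 / lam - 2 * N = (N * lam - 1) ^ 2 / lam := by
      field_simp
      ring
    have h5 : 0 ≤ (N * lam - 1) ^ 2 / lam := by positivity
    linarith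
  set U := (N : ℝ) ^ 2 * lam with hU
  set V := 1 / lam with hV
  have e0 : 0 ≤ A - 1 := by linarith
  have e1 : 0 ≤ L - 1 := by linarith
  -- 2N ≤ (U+V) ≤ (U + V) * L ≤ A (U+V) L
  have b1 : U + V ≤ (U + V) * L := by nlinarith
  have b2 : (U + V) * L ≤ A * ((U + V) * L) := by nlinarith
  have b3 : 8 * (L * V) ≤ 8 * (A * (L * V)) := by nlinarith [mul_nonneg e0 (mul_nonneg (by linarith : (0:ℝ) ≤ L) hil.le)]
  have b4 : 8 * A * U ≤ 8 * (A * (L * U)) := by nlinarith [mul_nonneg hA0 (mul_nonneg e1 hNl.le)]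
  have b5 : 32 * A * (N * L) ≤ 16 * (A * ((U + V) * L)) := by
    have : 0 ≤ A * L := by nlinarith
    nlinarith
  nlinarith

end Pool.Agent.T2H54.SB.PkgV3
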