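import Pool.Agent.T2H57.VT.A

/-! Sums `∑ b(m) b(m+d) w(m) e(g(m))` with monotone weights. -/

set_option autoImplicit false

namespace Pool.Agent.T2H54.SB.PkgV3

open Finset
open Pool.Agent.Helper153.Vdc

theorem abel1 (p : ℕ → ℝ) (z : ℕ → ℂ) (n : ℕ) (P R : ℝ) (hR0 : 0 ≤ R) (hp : ∀ i, i + 1 < n → p (i + 1) ≤ p i)
    (hp0 : ∀ i < n, 0 ≤ p i) (hP : ∀ i < n, p i ≤ P) (hP0 : 0 ≤ P)
    (hR : ∀ k ≤ n, ‖∑ i ∈ range k, z i‖ ≤ R) : ∀ k ≤ n, ‖∑ i ∈ range k, (p i : ℂ) * z i‖ ≤ P * R := by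
  have key : ∀ k, k + 1 ≤ n → ‖∑ i ∈ range k, (p i : ℂ) * z i - (p k : ℂ) * ∑ i ∈ range k, z i‖ ≤
      (p 0 - p k) * R := by
    intro k
    induction k with
    | zero => intro _; simp
    | succ k ih =>
      intro hk
      have h1 := ih (by omega)
      have e : ∑ i ∈ range (k + 1), (p i : ℂ) * z i - (p (k + 1) : ℂ) * ∑ i ∈ range (k + 1), z i =
          (∑ i ∈ range k, (p i : ℂ) * z i - (p k : ℂ) * ∑ i ∈ range k, z i) +
          (((p k - p (k + 1) : ℝ)) : ℂ) * ∑ i ∈ range (k + 1), z i := by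
        rw [sum_range_succ, sum_range_succ]
        push_cast
        ring
      rw [e]
      refine (norm_add_le _ _).trans ?_
      rw [norm_mul, Complex.norm_real, Real.norm_eq_abs, abs_of_nonneg (by linarith [hp k (by omega)])]
      have h2 := hR (k + 1) (by omega)
      have h3 : (p k - p (k + 1)) * ‖∑ i ∈ range (k + 1), z i‖ ≤ (p k - p (k + 1)) * R :=
        mul_le_mul_of_nonneg_left h2 (by linarith [hp k (by omega)])
      linarith
  intro k hk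
  rcases Nat.eq_zero_or_pos k with h0 | h0
  · subst h0
    simp only [range_zero, sum_empty, norm_zero]
    positivity
  obtain ⟨j, rfl⟩ : ∃ j, k = j + 1 := ⟨k - 1, by omega⟩
  have h1 := key j hk
  have e : ∑ i ∈ range (j + 1), (p i : ℂ) * z i =
      (∑ i ∈ range j, (p i : ℂ) * z i - (p j : ℂ) * ∑ i ∈ range j, z i) +
      (p j : ℂ) * ∑ i ∈ range (j + 1), z i := by
    rw [sum_range_succ, sum_range_succ]
    ring
  rw [e]
  refine (norm_add_le _ _).trans ?_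
  rw [norm_mul, Complex.norm_real, Real.norm_eq_abs, abs_of_nonneg (hp0 j (by omega))]
  have h2 := mul_le_mul_of_nonneg_left (hR (j + 1) hk) (hp0 j (by omega))
  have h3 : p 0 * R ≤ P * R := mul_le_mul_of_nonneg_right (hP 0 (by omega)) hR0
  linarith

theorem abel2 (p q : ℕ → ℝ) (z : ℕ → ℂ) (n : ℕ) (P Q R : ℝ) (hR0 : 0 ≤ R)
    (hp : ∀ i, i + 1 < n → p (i + 1) ≤ p i) (hp0 : ∀ i < n, 0 ≤ p i) (hP : ∀ i < n, p i ≤ P) (hP0 : 0 ≤ P)
    (hq : ∀ i, i + 1 < n → q i ≤ q (i + 1)) (hq0 : ∀ i < n, 0 ≤ q i) (hQ : ∀ i < n, q i ≤ Q) (hQ0 : 0 ≤ Q)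
    (hR : ∀ k ≤ n, ‖∑ i ∈ range k, z i‖ ≤ R) :
    ‖∑ i ∈ range n, (p i : ℂ) * ((q i : ℂ) * z i)‖ ≤ 2 * P * Q * R := by
  have h1 : ∀ k ≤ n, ‖∑ i ∈ range k, (q i : ℂ) * z i‖ ≤ 2 * Q * R := by
    intro k hk
    have h2 := abel1 (fun i => Q - q i) z n Q R hR0 (fun i hi => by linarith [hq i hi])
      (fun i hi => by linarith [hQ i hi]) (fun i hi => by linarith [hq0 i hi]) hQ0 hR k hk
    have e : ∑ i ∈ range k, (q i : ℂ) * z i = (Q : ℂ) * ∑ i ∈ range k, z i -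
        ∑ i ∈ range k, (((fun i => Q - q i) i : ℝ) : ℂ) * z i := by
      rw [mul_sum, ← sum_sub_distrib]
      refine sum_congr rfl fun i _ => ?_
      push_cast
      ring
    rw [e]
    refine (norm_sub_le _ _).trans ?_
    rw [norm_mul, Complex.norm_real, Real.norm_eq_abs, abs_of_nonneg hQ0]
    have h3 := mul_le_mul_of_nonneg_left (hR k hk) hQ0
    linarith
  have h2 := abel1 p (fun i => (q i : ℂ) * z i) n P (2 * Q * R) (by positivity) hp hp0 hP hP0 h1 n le_rfl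
  calc _ ≤ P * (2 * Q * R) := h2
    _ = _ := by ring

/-- the phase `T/(2π) log(1 + d/x)` and its derivatives -/
noncomputable def ph (T : ℝ) (d : ℕ) : ℕ → ℝ → ℝ
  | 0, x => T / (2 * Real.pi) * (Real.log (x + d) - Real.log x)
  | 1, x => T / (2 * Real.pi) * ((x + d)⁻¹ - x⁻¹)
  | _, x => T / (2 * Real.pi) * (-((x + d) ^ 2)⁻¹ - -(x ^ 2)⁻¹)

/-- the second derivative parameter -/
noncomputable def lm (T : ℝ) (X d : ℕ) : ℝ := T / (2 * Real.pi) * (d / (9 * (X : ℝ) ^ 3))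

theorem ph_blk {T : ℝ} (hT : 0 < T) {X d : ℕ} (hd : 1 ≤ d) (hdX : d ≤ X) :
    T2H58.SE.Blk 2 18 (ph T d) X 1 (lm T X d) := by
  have hX1 : (1 : ℝ) ≤ X := by exact_mod_cast hd.trans hdX
  have hX0 : (0 : ℝ) < X := by linarith
  have hd1 : (1 : ℝ) ≤ d := by exact_mod_cast hd
  have hd0 : (0 : ℝ) < d := by linarith
  have hdX' : (d : ℝ) ≤ X := by exact_mod_cast hdX
  have hc : 0 < T / (2 * Real.pi) := by positivity
  have e2 : ∀ x : ℝ, 0 < x → ph T d 2 x = T / (2 * Real.pi) * (d * (2 * x + d) / (x ^ 2 * (x + d) ^ 2)) := by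
    intro x hx
    show T / (2 * Real.pi) * (-((x + d) ^ 2)⁻¹ - -(x ^ 2)⁻¹) = _
    congr 1
    have : x + d ≠ 0 := by positivity
    field_simp
    ring
  refine ⟨?_, Or.inl rfl, ?_, ?_, Or.inl ?_⟩
  · intro j hj x hx
    have hx0 : 0 < x := hX0.trans_le hx.1
    have hxd : x + d ≠ 0 := by positivity
    have hid : HasDerivAt (fun x : ℝ => x + d) 1 x := (hasDerivAt_id x).add_const _
    interval_cases j
    · show HasDerivAt (fun x => T / (2 * Real.pi) * (Real.log (x + d) - Real.log x))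
        (T / (2 * Real.pi) * ((x + d)⁻¹ - x⁻¹)) x
      refine HasDerivAt.const_mul _ (HasDerivAt.sub ?_ (Real.hasDerivAt_log hx0.ne'))
      have h1 := hid.log hxd
      rwa [one_div] at h1
    · show HasDerivAt (fun x : ℝ => T / (2 * Real.pi) * ((x + d)⁻¹ - x⁻¹))
        (T / (2 * Real.pi) * (-((x + d) ^ 2)⁻¹ - -(x ^ 2)⁻¹)) x
      refine HasDerivAt.const_mul _ (HasDerivAt.sub ?_ (hasDerivAt_inv hx0.ne'))
      have h1 := hid.inv hxd
      refine h1.congr_deriv ?_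
      rw [neg_div, one_div]
  · intro x hx
    have hx0 : 0 < x := hX0.trans_le hx.1
    rw [one_mul, e2 x hx0]
    unfold lm
    refine mul_le_mul_of_nonneg_left ?_ hc.le
    rw [div_le_div_iff₀ (by positivity) (by positivity)]
    have hx2 : x ≤ 2 * X := hx.2
    have h1 : x + d ≤ 3 * X := by linarith
    have h2 : x ^ 2 * (x + d) ^ 2 ≤ x * (2 * X) * (3 * X) ^ 2 := by
      have h3 : x ^ 2 ≤ x * (2 * X) := by nlinarith
      have h4 : (x + d) ^ 2 ≤ (3 * (X:ℝ)) ^ 2 := pow_le_pow_left₀ (by positivity) h1 2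
      exact mul_le_mul h3 h4 (by positivity) (by positivity)
    have h3 : (d : ℝ) * (x ^ 2 * (x + d) ^ 2) ≤ d * (x * (2 * X) * (3 * X) ^ 2) :=
      mul_le_mul_of_nonneg_left h2 hd0.le
    have h4 : (d : ℝ) * (x * (2 * X) * (3 * X) ^ 2) = d * (2 * x) * (9 * (X : ℝ) ^ 3) := by ring
    have h5 : (d : ℝ) * (2 * x) * (9 * (X : ℝ) ^ 3) ≤ d * (2 * x + d) * (9 * (X : ℝ) ^ 3) := by
      apply mul_le_mul_of_nonneg_right _ (by positivity)
      apply mul_le_mul_of_nonneg_left _ hd0.le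
      linarith
    linarith
  · intro x hx
    have hx0 : 0 < x := hX0.trans_le hx.1
    rw [one_mul, e2 x hx0]
    unfold lm
    rw [show (18 : ℝ) * (T / (2 * Real.pi) * (d / (9 * (X : ℝ) ^ 3))) =
      T / (2 * Real.pi) * (2 * d / (X : ℝ) ^ 3) by field_simp; ring]
    refine mul_le_mul_of_nonneg_left ?_ hc.le
    rw [div_le_div_iff₀ (by positivity) (by positivity)]
    have hx1 : (X : ℝ) ≤ x := hx.1
    have h1 : (X : ℝ) ^ 3 ≤ x ^ 2 * (x + d) := by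
      have h2 : (X : ℝ) ^ 3 ≤ x ^ 3 := pow_le_pow_left₀ hX0.le hx1 3
      have h3 : x ^ 3 ≤ x ^ 2 * (x + d) := by nlinarith [mul_pos (pow_pos hx0 2) hd0]
      linarith
    have h2 : 2 * x + d ≤ 2 * (x + d) := by linarith
    calc (d : ℝ) * (2 * x + d) * (X : ℝ) ^ 3 ≤ d * (2 * (x + d)) * (x ^ 2 * (x + d)) := by
          gcongr
      _ = 2 * d * (x ^ 2 * (x + d) ^ 2) := by ring
  · intro x hx y hy hxy
    have hx0 : 0 < x := hX0.trans_le hx.1
    have hy0 : 0 < y := hX0.trans_le hy.1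
    rw [one_mul, one_mul, e2 x hx0, e2 y hy0]
    refine mul_le_mul_of_nonneg_left ?_ hc.le
    have e3 : ∀ x : ℝ, 0 < x → (d : ℝ) * (2 * x + d) / (x ^ 2 * (x + d) ^ 2) =
        d * ((1 / (x ^ 2 * (x + d))) + 1 / (x * (x + d) ^ 2)) := by
      intro x hx
      have : x + d ≠ 0 := by positivity
      field_simp
      ring
    rw [e3 x hx0, e3 y hy0]
    gcongr

theorem ph_sum {T : ℝ} (hT : 0 < T) {X d : ℕ} (hd : 1 ≤ d) (hdX : d ≤ X) {Z : ℕ} (hXZ : X ≤ Z) (hZ : Z ≤ 2 * X) :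
    ‖∑ m ∈ Ioc X Z, ee (ph T d 0 m)‖ ≤ Real.sqrt (33 * 18 * ((X : ℝ) ^ 2 * lm T X d + 1 / lm T X d) *
      (1 + Real.log X)) := by
  have hX1 : (1 : ℝ) ≤ X := by exact_mod_cast hd.trans hdX
  have hX0 : (0 : ℝ) < X := by linarith
  have hd0 : (0 : ℝ) < d := by exact_mod_cast hd
  apply (ph_blk hT hd hdX).transfer hXZ hZ
  intro g hg
  apply Real.le_sqrt_of_sq_le
  exact vdc2 (by norm_num) (hd.trans hdX) (by omega) (by unfold lm; positivity) hg

end Pool.Agent.T2H54.SB.PkgV3
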