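import Pool.Agent.T2H57.VT.B

/-! The double sum over a dyadic block. -/

set_option autoImplicit false

namespace Pool.Agent.T2H54.SB.PkgV3

open Finset
open Pool.Agent.Helper153.Vdc

theorem dsum (F : ℕ → ℕ → ℂ) (hF : ∀ m n, F n m = (starRingEnd ℂ) (F m n)) (X Z : ℕ) :
    ‖∑ m ∈ Ioc X Z, ∑ n ∈ Ioc X Z, F m n‖ ≤ ∑ m ∈ Ioc X Z, ‖F m m‖ +
      2 * ∑ d ∈ Ico 1 (Z - X), ‖∑ m ∈ Ioc X (Z - d), F m (m + d)‖ := by
  have e1 : ∀ m ∈ Ioc X Z, ∑ n ∈ Ioc X Z, F m n = F m m + ∑ n ∈ Ioc m Z, F m n + ∑ n ∈ Ioc X (m - 1), F m n := by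
    intro m hm
    rw [mem_Ioc] at hm
    have h1 : Ioc X Z = insert m (Ioc m Z ∪ Ioc X (m - 1)) := by
      ext n
      rw [mem_insert, mem_union, mem_Ioc, mem_Ioc, mem_Ioc]
      omega
    rw [h1, sum_insert (by rw [mem_union, mem_Ioc, mem_Ioc]; omega), sum_union, add_assoc]
    rw [disjoint_left]
    intro n hn hn'
    rw [mem_Ioc] at hn hn'
    omega
  have e2 : ∑ m ∈ Ioc X Z, ∑ n ∈ Ioc m Z, F m n = ∑ d ∈ Ico 1 (Z - X), ∑ m ∈ Ioc X (Z - d), F m (m + d) := by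
    have h1 : ∀ m ∈ Ioc X Z, ∑ n ∈ Ioc m Z, F m n = ∑ d ∈ Ico 1 (Z + 1 - m), F m (m + d) := by
      intro m hm
      rw [mem_Ioc] at hm
      apply sum_nbij' (fun n => n - m) (fun d => m + d)
      · intro i hi; rw [mem_Ioc] at hi; rw [mem_Ico]; omega
      · intro i hi; rw [mem_Ico] at hi; rw [mem_Ioc]; omega
      · intro i hi; rw [mem_Ioc] at hi; omega
      · intro i hi; omega
      · intro i hi
        rw [mem_Ioc] at hi
        congr 1
        omega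
    rw [sum_congr rfl h1]
    apply sum_comm'
    intro m d
    rw [mem_Ioc, mem_Ico, mem_Ico, mem_Ioc]
    omega
  have e3 : ∑ m ∈ Ioc X Z, ∑ n ∈ Ioc X (m - 1), F m n =
      (starRingEnd ℂ) (∑ m ∈ Ioc X Z, ∑ n ∈ Ioc m Z, F m n) := by
    rw [map_sum]
    simp_rw [map_sum, ← hF]
    apply sum_comm'
    intro m n
    rw [mem_Ioc, mem_Ioc, mem_Ioc, mem_Ioc]
    omega
  rw [sum_congr rfl e1, sum_add_distrib, sum_add_distrib, e3]
  have h1 : ‖∑ m ∈ Ioc X Z, ∑ n ∈ Ioc m Z, F m n‖ ≤ ∑ d ∈ Ico 1 (Z - X), ‖∑ m ∈ Ioc X (Z - d), F m (m + d)‖ := by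
    rw [e2]
    exact norm_sum_le _ _
  have h2 := norm_add_le (∑ m ∈ Ioc X Z, F m m + ∑ m ∈ Ioc X Z, ∑ n ∈ Ioc m Z, F m n)
    ((starRingEnd ℂ) (∑ m ∈ Ioc X Z, ∑ n ∈ Ioc m Z, F m n))
  have h3 := norm_add_le (∑ m ∈ Ioc X Z, F m m) (∑ m ∈ Ioc X Z, ∑ n ∈ Ioc m Z, F m n)
  have h4 := norm_sum_le (Ioc X Z) (fun m => F m m)
  rw [RCLike.norm_conj] at h2
  linarith

/-- the terms of the double sum -/
noncomputable def FF (b : ℕ → ℝ) (T L : ℝ) (m n : ℕ) : ℂ :=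
  (b m : ℂ) * b n * (Complex.exp (((-(T * (Real.log m - Real.log n)) : ℝ) : ℂ) * Complex.I) *
    (Real.exp (-(((Real.log m - Real.log n) * L) ^ 2 / 4)) : ℝ))

theorem FF_symm (b : ℕ → ℝ) (T L : ℝ) (m n : ℕ) : FF b T L n m = (starRingEnd ℂ) (FF b T L m n) := by
  unfold FF
  simp only [map_mul, Complex.conj_ofReal, ← Complex.exp_conj, Complex.conj_I]
  have e1 : (((Real.log n - Real.log m) * L) ^ 2 / 4) = (((Real.log m - Real.log n) * L) ^ 2 / 4) := by ring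
  rw [e1]
  have e2 : ((-(T * (Real.log n - Real.log m)) : ℝ) : ℂ) * Complex.I =
      ((-(T * (Real.log m - Real.log n)) : ℝ) : ℂ) * -Complex.I := by
    push_cast
    ring
  rw [e2]
  ring

theorem FF_diag (b : ℕ → ℝ) (T L : ℝ) (m : ℕ) : ‖FF b T L m m‖ = b m ^ 2 := by
  unfold FF
  simp only [sub_self, mul_zero, neg_zero, Complex.ofReal_zero, zero_mul, Complex.exp_zero,
    ne_eq, OfNat.ofNat_ne_zero, not_false_eq_true, zero_pow, zero_div, Real.exp_zero, Complex.ofReal_one, mul_one]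
  rw [← Complex.ofReal_mul, Complex.norm_real, Real.norm_eq_abs, abs_mul_self]
  ring

theorem td_bound {T L : ℝ} (hT : 0 < T) (hL : 0 < L) {X Z d : ℕ} (hd : 1 ≤ d) (hXZ : X ≤ Z) (hZ : Z ≤ 2 * X)
    (hdZ : d < Z - X) {b : ℕ → ℝ} (hb0 : ∀ m, X < m → 0 ≤ b m) (hb : ∀ m n, X < m → m ≤ n → b n ≤ b m)
    (hb1 : ∀ m, X < m → b m ^ 2 ≤ 1 / X) :
    ‖∑ m ∈ Ioc X (Z - d), FF b T L m (m + d)‖ ≤ 2 * (1 / X) * Real.exp (-(L * d / (4 * X)) ^ 2) *
      Real.sqrt (33 * 18 * ((X : ℝ) ^ 2 * lm T X d + 1 / lm T X d) * (1 + Real.log X)) := by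
  have hdX : d ≤ X := by omega
  have hX1 : (1 : ℝ) ≤ X := by exact_mod_cast hd.trans hdX
  have hX0 : (0 : ℝ) < X := by linarith
  have hd0 : (0 : ℝ) < d := by exact_mod_cast hd
  set n := Z - d - X with hn
  rw [T2H58.SE.sum_left]
  have hpos : ∀ i : ℕ, 0 < (((X + 1 + i : ℕ)) : ℝ) := by intro i; positivity
  have hle : ∀ i, i < n → (((X + 1 + i : ℕ)) : ℝ) + d ≤ 2 * X := by
    intro i hi
    have : X + 1 + i + d ≤ 2 * X := by omega
    exact_mod_cast this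
  have e1 : ∀ i ∈ range (Z - d - X), FF b T L (X + 1 + i) (X + 1 + i + d) =
      ((b (X + 1 + i) * b (X + 1 + i + d) : ℝ) : ℂ) *
      ((Real.exp (-(((Real.log ((X + 1 + i : ℕ) : ℝ) - Real.log ((X + 1 + i + d : ℕ) : ℝ)) * L) ^ 2 / 4)) : ℝ) *
        ee (ph T d 0 ((X + 1 + i : ℕ) : ℝ))) := by
    intro i _
    unfold FF ph ee
    have e2 : ((-(T * (Real.log ((X + 1 + i : ℕ) : ℝ) - Real.log ((X + 1 + i + d : ℕ) : ℝ))) : ℝ) : ℂ) * Complex.I =
      2 * Real.pi * ((T / (2 * Real.pi) * (Real.log (((X + 1 + i : ℕ) : ℝ) + (d : ℝ)) - Real.log ((X + 1 + i : ℕ) : ℝ)) : ℝ) : ℂ) *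
        Complex.I := by
      have hpi : (Real.pi : ℂ) ≠ 0 := by exact_mod_cast Real.pi_ne_zero
      rw [Nat.cast_add (X + 1 + i) d]
      push_cast
      field_simp
      ring
    rw [e2]
    push_cast
    ring
  rw [sum_congr rfl e1]
  refine abel2 (fun i => b (X + 1 + i) * b (X + 1 + i + d))
    (fun i => Real.exp (-(((Real.log ((X + 1 + i : ℕ) : ℝ) - Real.log ((X + 1 + i + d : ℕ) : ℝ)) * L) ^ 2 / 4)))
    (fun i => ee (ph T d 0 ((X + 1 + i : ℕ) : ℝ))) n (1 / X) (Real.exp (-(L * d / (4 * X)) ^ 2)) _ (Real.sqrt_nonneg _)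
    ?_ ?_ ?_ (by positivity) ?_ ?_ ?_ (Real.exp_pos _).le ?_
  · intro i _
    exact mul_le_mul (hb _ _ (by omega) (by omega)) (hb _ _ (by omega) (by omega)) (hb0 _ (by omega)) (hb0 _ (by omega))
  · intro i _
    exact mul_nonneg (hb0 _ (by omega)) (hb0 _ (by omega))
  · intro i _
    have h1 := hb1 (X + 1 + i) (by omega)
    have h2 : b (X + 1 + i + d) ≤ b (X + 1 + i) := hb _ _ (by omega) (by omega)
    have h3 := mul_le_mul_of_nonneg_left h2 (hb0 (X + 1 + i) (by omega))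
    nlinarith
  · intro i hi
    apply Real.exp_le_exp.2
    have k1 : ∀ j : ℕ, Real.log ((X + 1 + j + d : ℕ) : ℝ) - Real.log ((X + 1 + j : ℕ) : ℝ) =
        Real.log (1 + d / ((X + 1 + j : ℕ) : ℝ)) := by
      intro j
      rw [← Real.log_div (by positivity) (by positivity)]
      congr 1
      rw [Nat.cast_add (X + 1 + j) d]
      have := hpos j
      field_simp
    have h1 : Real.log (1 + d / ((X + 1 + (i + 1) : ℕ) : ℝ)) ≤ Real.log (1 + d / ((X + 1 + i : ℕ) : ℝ)) := by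
      apply Real.log_le_log (by positivity)
      have h2 : ((X + 1 + i : ℕ) : ℝ) ≤ ((X + 1 + (i + 1) : ℕ) : ℝ) := by exact_mod_cast (by omega)
      gcongr
    have h0 : 0 ≤ Real.log (1 + d / ((X + 1 + (i + 1) : ℕ) : ℝ)) := by
      apply Real.log_nonneg
      have : 0 ≤ (d : ℝ) / ((X + 1 + (i + 1) : ℕ) : ℝ) := by positivity
      linarith
    rw [← k1] at h1 h0
    rw [← k1] at h1
    have h3 : ((Real.log ((X + 1 + (i + 1) : ℕ) : ℝ) - Real.log ((X + 1 + (i + 1) + d : ℕ) : ℝ)) * L) ^ 2 ≤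
        ((Real.log ((X + 1 + i : ℕ) : ℝ) - Real.log ((X + 1 + i + d : ℕ) : ℝ)) * L) ^ 2 := by
      rw [mul_pow, mul_pow]
      apply mul_le_mul_of_nonneg_right _ (by positivity)
      nlinarith
    linarith
  · intro i _
    exact (Real.exp_pos _).le
  · intro i hi
    apply Real.exp_le_exp.2
    have h1 : (d : ℝ) / (2 * X) ≤ Real.log ((X + 1 + i + d : ℕ) : ℝ) - Real.log ((X + 1 + i : ℕ) : ℝ) := by
      have h2 : Real.log ((X + 1 + i : ℕ) : ℝ) - Real.log ((X + 1 + i + d : ℕ) : ℝ) ≤ -((d : ℝ) / (2 * X)) := by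
        rw [← Real.log_div (by positivity) (by positivity)]
        refine (Real.log_le_sub_one_of_pos (by positivity)).trans ?_
        have h3 := hle i hi
        have h5 := hpos i
        rw [Nat.cast_add (X + 1 + i) d]
        have h4 : (((X + 1 + i : ℕ)) : ℝ) / ((((X + 1 + i : ℕ)) : ℝ) + d) - 1 = -(d / ((((X + 1 + i : ℕ)) : ℝ) + d)) := by
          field_simp
          ring
        rw [h4]
        apply neg_le_neg
        gcongr
      linarith
    have h2 : (L * d / (4 * X)) ^ 2 = (d / (2 * X) * L) ^ 2 / 4 := by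
      field_simp
      ring
    have h0 : 0 ≤ (d : ℝ) / (2 * X) := by positivity
    have h3 : (d / (2 * X) * L) ^ 2 ≤
        ((Real.log ((X + 1 + i : ℕ) : ℝ) - Real.log ((X + 1 + i + d : ℕ) : ℝ)) * L) ^ 2 := by
      rw [mul_pow, mul_pow]
      apply mul_le_mul_of_nonneg_right _ (by positivity)
      nlinarith
    have h4 : (-(L * d / (4 * X))) ^ 2 = (L * d / (4 * X)) ^ 2 := by ring
    linarith
  · intro k hk
    have h1 := ph_sum hT hd hdX (Z := X + k) (by omega) (by omega)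
    rw [T2H58.SE.sum_left] at h1
    have h2 : X + k - X = k := by omega
    rw [h2] at h1
    exact h1

end Pool.Agent.T2H54.SB.PkgV3
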