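import Pool.Agent.T2H57.VT.C

/-! The double sum over a dyadic block: final bound. -/

set_option autoImplicit false

namespace Pool.Agent.T2H54.SB.PkgV3

open Finset
open Pool.Agent.Helper153.Vdc

theorem y_bd {y : ℝ} (hy : 0 < y) : Real.exp (-y ^ 2) ^ 2 * y ^ 2 ≤ 1 ∧ Real.exp (-y ^ 2) ^ 2 * y ^ 3 ≤ 1 := by
  have h1 : 1 + y ^ 2 ≤ Real.exp (y ^ 2) := by linarith [Real.add_one_le_exp (y ^ 2)]
  have h2 : Real.exp (-y ^ 2) * Real.exp (y ^ 2) = 1 := by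
    rw [← Real.exp_add]; simp
  have h3 : 0 < Real.exp (-y ^ 2) := Real.exp_pos _
  have h4 : Real.exp (-y ^ 2) * (1 + y ^ 2) ≤ 1 := by
    have h2' := mul_le_mul_of_nonneg_left h1 h3.le
    linarith
  have h5 : (Real.exp (-y ^ 2) * (1 + y ^ 2)) ^ 2 ≤ 1 := by
    have : 0 ≤ Real.exp (-y ^ 2) * (1 + y ^ 2) := by positivity
    nlinarith
  have h6 : 0 < Real.exp (-y ^ 2) ^ 2 := by positivity
  constructor
  · calc Real.exp (-y ^ 2) ^ 2 * y ^ 2 ≤ Real.exp (-y ^ 2) ^ 2 * (1 + y ^ 2) ^ 2 := by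
          apply mul_le_mul_of_nonneg_left _ h6.le
          nlinarith [sq_nonneg y, sq_nonneg (y ^ 2)]
      _ = (Real.exp (-y ^ 2) * (1 + y ^ 2)) ^ 2 := by ring
      _ ≤ 1 := h5
  · calc Real.exp (-y ^ 2) ^ 2 * y ^ 3 ≤ Real.exp (-y ^ 2) ^ 2 * (1 + y ^ 2) ^ 2 := by
          apply mul_le_mul_of_nonneg_left _ h6.le
          nlinarith [sq_nonneg y, sq_nonneg (y ^ 2), mul_nonneg hy.le (sq_nonneg (y - 1)), sq_nonneg (y ^ 2 - y)]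
      _ = (Real.exp (-y ^ 2) * (1 + y ^ 2)) ^ 2 := by ring
      _ ≤ 1 := h5

theorem td2 {T L : ℝ} (hT : 0 < T) (hL : 0 < L) {X Z d : ℕ} (hd : 1 ≤ d) (hXZ : X ≤ Z) (hZ : Z ≤ 2 * X)
    (hdZ : d < Z - X) {b : ℕ → ℝ} (hb0 : ∀ m, X < m → 0 ≤ b m) (hb : ∀ m n, X < m → m ≤ n → b n ≤ b m)
    (hb1 : ∀ m, X < m → b m ^ 2 ≤ 1 / X) (h1 : T ≤ L ^ 3) (h2 : (X : ℝ) ^ 3 ≤ T * L ^ 2) :
    ‖∑ m ∈ Ioc X (Z - d), FF b T L m (m + d)‖ ≤ 1500 * (1 + Real.log X) * (1 / (d : ℝ)) := by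
  refine (td_bound hT hL hd hXZ hZ hdZ hb0 hb hb1).trans ?_
  have hdX : d ≤ X := by omega
  have hX1 : (1 : ℝ) ≤ X := by exact_mod_cast hd.trans hdX
  have hX0 : (0 : ℝ) < X := by linarith
  have hd1 : (1 : ℝ) ≤ d := by exact_mod_cast hd
  have hd0 : (0 : ℝ) < d := by linarith
  have hlog : 0 ≤ Real.log X := Real.log_nonneg hX1
  have hpi := Real.pi_pos
  have hlm : 0 < lm T X d := by unfold lm; positivity
  obtain ⟨y, hy⟩ : ∃ y : ℝ, y = L * d / (4 * X) := ⟨_, rfl⟩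
  have hy0 : 0 < y := by rw [hy]; positivity
  rw [← hy]
  obtain ⟨E, hE⟩ : ∃ E : ℝ, E = Real.exp (-y ^ 2) := ⟨_, rfl⟩
  have hE0 : 0 < E := by rw [hE]; exact Real.exp_pos _
  obtain ⟨hy2, hy3⟩ := y_bd hy0
  rw [← hE] at hy2 hy3 ⊢
  set ℓ := 1 + Real.log X with hℓ
  have hℓ1 : 1 ≤ ℓ := by linarith
  rw [mul_one_div (1500 * ℓ), le_div_iff₀ hd0]
  have hdE : (d : ℝ) = 4 * X * y / L := by rw [hy]; field_simp
  have A1 : (d : ℝ) ^ 2 * (2 * (1 / X) * E) ^ 2 * (33 * 18) * ((X : ℝ) ^ 2 * lm T X d) =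
      2376 * 64 / (18 * Real.pi) * (T / L ^ 3) * (E ^ 2 * y ^ 3) := by
    unfold lm
    rw [hdE]
    field_simp
    ring
  have A2 : (d : ℝ) ^ 2 * (2 * (1 / X) * E) ^ 2 * (33 * 18) * (1 / lm T X d) ≤
      2376 * (18 * Real.pi) * 16 * ((X : ℝ) ^ 3 / (T * L ^ 2)) * (E ^ 2 * y ^ 2) := by
    have e1 : (d : ℝ) ^ 2 * (2 * (1 / X) * E) ^ 2 * (33 * 18) * (1 / lm T X d) =
        2376 * (18 * Real.pi) * (X / T) * E ^ 2 * d := by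
      unfold lm
      field_simp
      ring
    have e2 : 2376 * (18 * Real.pi) * 16 * ((X : ℝ) ^ 3 / (T * L ^ 2)) * (E ^ 2 * y ^ 2) =
        2376 * (18 * Real.pi) * (X / T) * E ^ 2 * d ^ 2 := by
      rw [hdE]
      field_simp
      ring
    rw [e1, e2]
    apply mul_le_mul_of_nonneg_left _ (by positivity)
    nlinarith
  have B1 : 2376 * 64 / (18 * Real.pi) * (T / L ^ 3) * (E ^ 2 * y ^ 3) ≤ 2816 := by
    have c1 : 2376 * 64 / (18 * Real.pi) ≤ 2816 := by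
      rw [div_le_iff₀ (by positivity)]
      nlinarith [Real.pi_gt_three]
    have c2 : T / L ^ 3 ≤ 1 := by
      rw [div_le_one (by positivity)]
      exact h1
    have c3 : 0 ≤ T / L ^ 3 := by positivity
    have c4 : 0 ≤ E ^ 2 * y ^ 3 := by positivity
    calc 2376 * 64 / (18 * Real.pi) * (T / L ^ 3) * (E ^ 2 * y ^ 3) ≤ 2816 * 1 * 1 := by
          gcongr
      _ = 2816 := by norm_num
  have B2 : 2376 * (18 * Real.pi) * 16 * ((X : ℝ) ^ 3 / (T * L ^ 2)) * (E ^ 2 * y ^ 2) ≤ 2200000 := by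
    have c1 : 2376 * (18 * Real.pi) * 16 ≤ 2200000 := by
      nlinarith [Real.pi_lt_d2]
    have c2 : (X : ℝ) ^ 3 / (T * L ^ 2) ≤ 1 := by
      rw [div_le_one (by positivity)]
      exact h2
    have c3 : 0 ≤ (X : ℝ) ^ 3 / (T * L ^ 2) := by positivity
    have c4 : 0 ≤ E ^ 2 * y ^ 2 := by positivity
    calc 2376 * (18 * Real.pi) * 16 * ((X : ℝ) ^ 3 / (T * L ^ 2)) * (E ^ 2 * y ^ 2) ≤ 2200000 * 1 * 1 := by
          gcongr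
      _ = 2200000 := by norm_num
  have hmain : (2 * (1 / X) * E * Real.sqrt (33 * 18 * ((X : ℝ) ^ 2 * lm T X d + 1 / lm T X d) * ℓ) * d) ^ 2 ≤
      (1500 * ℓ) ^ 2 := by
    rw [mul_pow, mul_pow _ (Real.sqrt _), Real.sq_sqrt (by positivity)]
    have e : (2 * (1 / (X : ℝ)) * E) ^ 2 * (33 * 18 * ((X : ℝ) ^ 2 * lm T X d + 1 / lm T X d) * ℓ) * (d : ℝ) ^ 2 =
        ((d : ℝ) ^ 2 * (2 * (1 / X) * E) ^ 2 * (33 * 18) * ((X : ℝ) ^ 2 * lm T X d) +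
        (d : ℝ) ^ 2 * (2 * (1 / X) * E) ^ 2 * (33 * 18) * (1 / lm T X d)) * ℓ := by ring
    rw [e]
    have h5 : ((d : ℝ) ^ 2 * (2 * (1 / X) * E) ^ 2 * (33 * 18) * ((X : ℝ) ^ 2 * lm T X d) +
        (d : ℝ) ^ 2 * (2 * (1 / X) * E) ^ 2 * (33 * 18) * (1 / lm T X d)) ≤ 2250000 := by
      rw [A1]
      linarith
    calc _ ≤ 2250000 * ℓ := mul_le_mul_of_nonneg_right h5 (by linarith)
      _ ≤ (1500 * ℓ) ^ 2 := by nlinarith
  exact (pow_le_pow_iff_left₀ (by positivity) (by positivity) two_ne_zero).1 hmain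

theorem FF_bound {T L : ℝ} (hT : 0 < T) (hL : 0 < L) {X Z : ℕ} (hX : 1 ≤ X) (hXZ : X ≤ Z) (hZ : Z ≤ 2 * X)
    {b : ℕ → ℝ} (hb0 : ∀ m, X < m → 0 ≤ b m) (hb : ∀ m n, X < m → m ≤ n → b n ≤ b m)
    (hb1 : ∀ m, X < m → b m ^ 2 ≤ 1 / X) (h1 : T ≤ L ^ 3) (h2 : (X : ℝ) ^ 3 ≤ T * L ^ 2) :
    ‖∑ m ∈ Ioc X Z, ∑ n ∈ Ioc X Z, FF b T L m n‖ ≤ 3001 * (1 + Real.log X) ^ 2 := by
  have hX1 : (1 : ℝ) ≤ X := by exact_mod_cast hX
  have hX0 : (0 : ℝ) < X := by linarith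
  have hlog : 0 ≤ Real.log X := Real.log_nonneg hX1
  refine (dsum (FF b T L) (FF_symm b T L) X Z).trans ?_
  have h3 : ∑ m ∈ Ioc X Z, ‖FF b T L m m‖ ≤ 1 := by
    have h4 : ∑ m ∈ Ioc X Z, ‖FF b T L m m‖ ≤ ∑ m ∈ Ioc X Z, (1 / X : ℝ) := by
      refine sum_le_sum fun m hm => ?_
      rw [mem_Ioc] at hm
      rw [FF_diag]
      exact hb1 m hm.1
    refine h4.trans ?_
    rw [sum_const, Nat.card_Ioc, nsmul_eq_mul, mul_one_div, div_le_one hX0]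
    have : Z - X ≤ X := by omega
    exact_mod_cast this
  have h5 : ∑ d ∈ Ico 1 (Z - X), ‖∑ m ∈ Ioc X (Z - d), FF b T L m (m + d)‖ ≤
      1500 * (1 + Real.log X) ^ 2 := by
    have h6 : ∑ d ∈ Ico 1 (Z - X), ‖∑ m ∈ Ioc X (Z - d), FF b T L m (m + d)‖ ≤
        ∑ d ∈ Ico 1 (Z - X), 1500 * (1 + Real.log X) * (1 / (d : ℝ)) := by
      refine sum_le_sum fun d hd => ?_
      rw [mem_Ico] at hd
      exact td2 hT hL hd.1 hXZ hZ hd.2 hb0 hb hb1 h1 h2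
    refine h6.trans ?_
    rw [← mul_sum]
    have h7 := sum_inv_le (H := Z - X) (N := X) (by omega)
    calc 1500 * (1 + Real.log X) * ∑ i ∈ Ico 1 (Z - X), 1 / (i : ℝ) ≤
        1500 * (1 + Real.log X) * (1 + Real.log X) := mul_le_mul_of_nonneg_left h7 (by positivity)
      _ = _ := by ring
  nlinarith

end Pool.Agent.T2H54.SB.PkgV3
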