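import Pool.Agent.T2H57.VT.D

/-! The mean square over a short interval of a sum over a dyadic block. -/

set_option autoImplicit false

namespace Pool.Agent.T2H54.SB.PkgV3

open Finset MeasureTheory Complex

/-- the integrand -/
noncomputable def gf (T L θ : ℝ) (u : ℝ) : ℂ :=
  ((Real.exp (-((u - T) / L) ^ 2) : ℝ) : ℂ) * cexp (((-(u * θ) : ℝ) : ℂ) * I)

theorem gf_int (T L θ : ℝ) (hL : 0 < L) : Integrable (gf T L θ) := by
  have h := integrable_cexp_quadratic (b := ((1 / L ^ 2 : ℝ) : ℂ)) (by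
    rw [Complex.ofReal_re]; positivity) (((2 * T / L ^ 2 : ℝ) : ℂ) - θ * I) (((-(T / L) ^ 2 : ℝ)) : ℂ)
  refine h.congr (Filter.Eventually.of_forall fun u => ?_)
  unfold gf
  simp only
  rw [Complex.ofReal_exp, ← Complex.exp_add]
  congr 1
  have hL' : (L : ℂ) ≠ 0 := by exact_mod_cast hL.ne'
  push_cast
  field_simp
  ring

/-- the constant -/
noncomputable def gc (L : ℝ) : ℂ := (Real.pi / ((1 / L ^ 2 : ℝ) : ℂ)) ^ (1 / 2 : ℂ)

theorem gc_norm (L : ℝ) (hL : 0 < L) : ‖gc L‖ ≤ 2 * L := by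
  unfold gc
  have e : (Real.pi / ((1 / L ^ 2 : ℝ) : ℂ)) = ((Real.pi * L ^ 2 : ℝ) : ℂ) := by
    have hL' : (L : ℂ) ≠ 0 := by exact_mod_cast hL.ne'
    push_cast
    field_simp
  rw [e, Complex.norm_cpow_eq_rpow_re_of_pos (by positivity)]
  have e2 : ((1 / 2 : ℂ)).re = 1 / 2 := by norm_num
  rw [e2, ← Real.sqrt_eq_rpow]
  rw [Real.sqrt_le_left (by positivity)]
  nlinarith [Real.pi_lt_four, sq_nonneg L]

theorem gauss_int (T L θ : ℝ) (hL : 0 < L) : ∫ u, gf T L θ u =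
    gc L * (cexp (((-(T * θ) : ℝ) : ℂ) * I) * (Real.exp (-((θ * L) ^ 2 / 4)) : ℝ)) := by
  rw [← integral_add_right_eq_self (gf T L θ) T]
  have hL' : (L : ℂ) ≠ 0 := by exact_mod_cast hL.ne'
  have e : ∀ u : ℝ, gf T L θ (u + T) = cexp (((-(T * θ) : ℝ) : ℂ) * I) *
      (cexp (I * ((-θ : ℝ) : ℂ) * u) * cexp (-((1 / L ^ 2 : ℝ) : ℂ) * u ^ 2)) := by
    intro u
    unfold gf
    rw [Complex.ofReal_exp, ← Complex.exp_add, ← Complex.exp_add, ← Complex.exp_add]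
    congr 1
    push_cast
    field_simp
    ring
  simp_rw [e]
  rw [integral_const_mul, fourierIntegral_gaussian (by rw [Complex.ofReal_re]; positivity)]
  unfold gc
  rw [Complex.ofReal_exp]
  have e2 : -((-θ : ℝ) : ℂ) ^ 2 / (4 * ((1 / L ^ 2 : ℝ) : ℂ)) = ((-((θ * L) ^ 2 / 4) : ℝ) : ℂ) := by
    push_cast
    field_simp
  rw [e2]
  ring

/-- the Dirichlet polynomial on a block -/
noncomputable def SS (b : ℕ → ℝ) (s : Finset ℕ) (u : ℝ) : ℂ :=
  ∑ m ∈ s, (b m : ℂ) * cexp (((-(u * Real.log m) : ℝ) : ℂ) * I)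

theorem SS_cont (b : ℕ → ℝ) (s : Finset ℕ) : Continuous (SS b s) := by
  unfold SS
  fun_prop

theorem SS_sq (b : ℕ → ℝ) (s : Finset ℕ) (T L : ℝ) (u : ℝ) :
    ((Real.exp (-((u - T) / L) ^ 2) * ‖SS b s u‖ ^ 2 : ℝ) : ℂ) =
    ∑ m ∈ s, ∑ n ∈ s, ((b m : ℂ) * b n) * gf T L (Real.log m - Real.log n) u := by
  have h1 : ((‖SS b s u‖ ^ 2 : ℝ) : ℂ) = SS b s u * (starRingEnd ℂ) (SS b s u) := by
    rw [Complex.mul_conj, Complex.normSq_eq_norm_sq]
  rw [Complex.ofReal_mul, h1]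
  unfold SS
  rw [map_sum, sum_mul_sum, mul_sum]
  refine sum_congr rfl fun m _ => ?_
  rw [mul_sum]
  refine sum_congr rfl fun n _ => ?_
  unfold gf
  rw [map_mul, Complex.conj_ofReal, ← Complex.exp_conj, map_mul, Complex.conj_ofReal, Complex.conj_I]
  have e : cexp (((-(u * (Real.log m - Real.log n)) : ℝ) : ℂ) * I) =
      cexp (((-(u * Real.log m) : ℝ) : ℂ) * I) * cexp (((-(u * Real.log n) : ℝ) : ℂ) * -I) := by
    rw [← Complex.exp_add]
    congr 1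
    push_cast
    ring
  rw [e]
  ring

theorem SS_int (b : ℕ → ℝ) (s : Finset ℕ) (T L : ℝ) (hL : 0 < L) :
    Integrable (fun u : ℝ => Real.exp (-((u - T) / L) ^ 2) * ‖SS b s u‖ ^ 2) := by
  have h : Integrable (fun u : ℝ => ((Real.exp (-((u - T) / L) ^ 2) * ‖SS b s u‖ ^ 2 : ℝ) : ℂ)) := by
    simp_rw [SS_sq]
    exact integrable_finsetSum _ fun m _ => integrable_finsetSum _ fun n _ => (gf_int T L _ hL).const_mul _
  exact h.re.congr (Filter.Eventually.of_forall fun u => Complex.ofReal_re _)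

theorem gauss_sum (b : ℕ → ℝ) (s : Finset ℕ) (T L : ℝ) (hL : 0 < L) :
    ∫ u : ℝ, Real.exp (-((u - T) / L) ^ 2) * ‖SS b s u‖ ^ 2 ≤
      2 * L * ‖∑ m ∈ s, ∑ n ∈ s, FF b T L m n‖ := by
  have h : ((∫ u : ℝ, Real.exp (-((u - T) / L) ^ 2) * ‖SS b s u‖ ^ 2 : ℝ) : ℂ) =
      gc L * ∑ m ∈ s, ∑ n ∈ s, FF b T L m n := by
    rw [← integral_complex_ofReal]
    simp_rw [SS_sq]
    rw [integral_finsetSum _ fun m _ => integrable_finsetSum _ fun n _ => (gf_int T L _ hL).const_mul _, mul_sum]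
    refine sum_congr rfl fun m _ => ?_
    rw [integral_finsetSum _ fun n _ => (gf_int T L _ hL).const_mul _, mul_sum]
    refine sum_congr rfl fun n _ => ?_
    rw [integral_const_mul, gauss_int T L _ hL]
    unfold FF
    ring
  have h2 : ‖((∫ u : ℝ, Real.exp (-((u - T) / L) ^ 2) * ‖SS b s u‖ ^ 2 : ℝ) : ℂ)‖ ≤
      2 * L * ‖∑ m ∈ s, ∑ n ∈ s, FF b T L m n‖ := by
    rw [h, norm_mul]
    exact mul_le_mul_of_nonneg_right (gc_norm L hL) (norm_nonneg _)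
  rw [Complex.norm_real, Real.norm_eq_abs] at h2
  exact (le_abs_self _).trans h2

theorem short_int (b : ℕ → ℝ) (s : Finset ℕ) (T L : ℝ) (hL : 0 < L) :
    ∫ u in T..(T + L), ‖SS b s u‖ ^ 2 ≤ 6 * L * ‖∑ m ∈ s, ∑ n ∈ s, FF b T L m n‖ := by
  have h1 : ∫ u in T..(T + L), ‖SS b s u‖ ^ 2 ≤
      ∫ u in T..(T + L), 3 * (Real.exp (-((u - T) / L) ^ 2) * ‖SS b s u‖ ^ 2) := by
    refine intervalIntegral.integral_mono_on (by linarith) ?_ ?_ ?_
    · exact ((SS_cont b s).norm.pow 2).intervalIntegrable _ _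
    · refine Continuous.intervalIntegrable ?_ _ _
      have := SS_cont b s
      fun_prop
    · intro u hu
      have h2 : ((u - T) / L) ^ 2 ≤ 1 := by
        have h3 : 0 ≤ (u - T) / L := div_nonneg (by linarith [hu.1]) hL.le
        have h4 : (u - T) / L ≤ 1 := by
          rw [div_le_one hL]; linarith [hu.2]
        nlinarith
      have h5 : Real.exp (-1) ≤ Real.exp (-((u - T) / L) ^ 2) := Real.exp_le_exp.2 (by linarith)
      have h6 : 1 ≤ 3 * Real.exp (-1) := by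
        rw [Real.exp_neg]
        have h7 := Real.exp_one_lt_d9
        have h8 := Real.exp_pos 1
        rw [← div_eq_mul_inv, le_div_iff₀ h8]
        linarith
      have h9 : 0 ≤ ‖SS b s u‖ ^ 2 := by positivity
      nlinarith
  refine h1.trans ?_
  rw [intervalIntegral.integral_const_mul, intervalIntegral.integral_of_le (by linarith)]
  have h2 : ∫ u in Set.Ioc T (T + L), Real.exp (-((u - T) / L) ^ 2) * ‖SS b s u‖ ^ 2 ≤
      ∫ u : ℝ, Real.exp (-((u - T) / L) ^ 2) * ‖SS b s u‖ ^ 2 :=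
    setIntegral_le_integral (SS_int b s T L hL) (Filter.Eventually.of_forall fun u => by positivity)
  have h3 := gauss_sum b s T L hL
  linarith

/-- The mean square over `[T, T + L]` of a block. -/
theorem block_int {T L : ℝ} (hT : 0 < T) (hL : 0 < L) {X Z : ℕ} (hX : 1 ≤ X) (hXZ : X ≤ Z) (hZ : Z ≤ 2 * X)
    {b : ℕ → ℝ} (hb0 : ∀ m, X < m → 0 ≤ b m) (hb : ∀ m n, X < m → m ≤ n → b n ≤ b m)
    (hb1 : ∀ m, X < m → b m ^ 2 ≤ 1 / X) (h1 : T ≤ L ^ 3) (h2 : (X : ℝ) ^ 3 ≤ T * L ^ 2) :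
    ∫ u in T..(T + L), ‖SS b (Ioc X Z) u‖ ^ 2 ≤ 18006 * L * (1 + Real.log X) ^ 2 := by
  refine (short_int b (Ioc X Z) T L hL).trans ?_
  have h3 := FF_bound hT hL hX hXZ hZ hb0 hb hb1 h1 h2
  calc 6 * L * ‖∑ m ∈ Ioc X Z, ∑ n ∈ Ioc X Z, FF b T L m n‖ ≤ 6 * L * (3001 * (1 + Real.log X) ^ 2) :=
        mul_le_mul_of_nonneg_left h3 (by positivity)
    _ = _ := by ring

end Pool.Agent.T2H54.SB.PkgV3
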